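import Mathlib

/-!
# Transitive groups of homeomorphisms of continua and the span

`X` is a compact metric space, `G` a group of homeomorphisms of `X` which acts transitively.
A weak form of the theorem of Effros (from the Baire category theorem) shows that the projections
of a closed `G`-invariant subset of `X ^ n` are open, so that its components project onto `X` if
`X` is connected.
-/

set_option autoImplicit false

namespace Pool.Agent.helper45.Span

open Set Topology Metric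

variable {X : Type} [MetricSpace X] [CompactSpace X]

/-- the points to which `x` can be moved by elements of `G` which move no point by more than `ε` -/
def small (G : Subgroup (X ≃ₜ X)) (ε : ℝ) (x : X) : Set X :=
  {y | ∃ g ∈ G, (∀ z, dist (g z) z ≤ ε) ∧ g x = y}

/-- a weak form of the theorem of Effros -/
theorem micro [Nonempty X] (G : Subgroup (X ≃ₜ X)) (hG : ∀ x y : X, ∃ g ∈ G, g x = y)
    (x : X) {ε : ℝ} (hε : 0 < ε) :
    ∃ δ > 0, ∀ y, dist y x < δ → y ∈ closure (small G ε x) := by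
  -- a countable family of elements of `G` whose inverses are dense
  let φ : G → C(X, X) := fun g => ⟨((g⁻¹ : G) : X ≃ₜ X), ((g⁻¹ : G) : X ≃ₜ X).continuous⟩
  have hne : (Set.range φ).Nonempty := ⟨φ 1, 1, rfl⟩
  have : Nonempty (Set.range φ) := hne.to_subtype
  obtain ⟨u, hu⟩ := TopologicalSpace.exists_dense_seq (Set.range φ)
  have hu' : ∀ n, ∃ g : G, φ g = (u n).1 := fun n => (u n).2
  choose v hv using hu'
  have key : ∀ g : G, ∃ n, dist (φ (v n)) (φ g) < ε / 2 := by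
    intro g
    obtain ⟨n, hn⟩ := hu.exists_dist_lt (⟨φ g, g, rfl⟩ : Set.range φ) (half_pos hε)
    refine ⟨n, ?_⟩
    rw [hv n, dist_comm]
    exact hn
  set K : Set X := closure (small G (ε / 2) x) with hK
  have hcov : (⋃ n, ((v n : G) : X ≃ₜ X) '' K) = univ := by
    rw [eq_univ_iff_forall]
    intro y
    obtain ⟨g, hg, hgy⟩ := hG x y
    obtain ⟨n, hn⟩ := key ⟨g, hg⟩
    rw [mem_iUnion]
    refine ⟨n, (((v n : G) : X ≃ₜ X)⁻¹ * g) x, subset_closure ⟨_, ?_, ?_, rfl⟩, ?_⟩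
    · exact G.mul_mem (G.inv_mem (v n).2) hg
    · intro z
      have h1 := (ContinuousMap.dist_lt_iff (half_pos hε)).1 hn (g z)
      have h2 : (φ ⟨g, hg⟩) (g z) = z := by
        show (g⁻¹ : X ≃ₜ X) (g z) = z
        exact g.symm_apply_apply z
      rw [h2] at h1
      exact le_of_lt h1
    · show ((v n : G) : X ≃ₜ X) ((((v n : G) : X ≃ₜ X)⁻¹) (g x)) = y
      rw [← hgy]
      exact ((v n : G) : X ≃ₜ X).apply_symm_apply (g x)
  obtain ⟨n, hn⟩ := nonempty_interior_of_iUnion_of_closed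
    (fun n => ((v n : G) : X ≃ₜ X).isClosedMap _ isClosed_closure) hcov
  rw [← Homeomorph.image_interior] at hn
  obtain ⟨-, p, hp, -⟩ := hn
  obtain ⟨q, hq1, hq2⟩ := mem_closure_iff.1 (interior_subset hp) _ isOpen_interior hp
  obtain ⟨g, hg, hgs, rfl⟩ := hq2
  have hopen : IsOpen (g ⁻¹' (interior K)) := isOpen_interior.preimage g.continuous
  obtain ⟨δ, hδ, hb⟩ := Metric.isOpen_iff.1 hopen x hq1
  refine ⟨δ, hδ, fun y hy => ?_⟩
  have h3 : g y ∈ closure (small G (ε / 2) x) := interior_subset (hb hy)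
  have h4 : y ∈ (g.symm) '' closure (small G (ε / 2) x) := ⟨g y, h3, g.symm_apply_apply y⟩
  rw [Homeomorph.image_closure] at h4
  refine closure_mono ?_ h4
  rintro _ ⟨_, ⟨h, hh, hhs, rfl⟩, rfl⟩
  refine ⟨g⁻¹ * h, G.mul_mem (G.inv_mem hg) hh, ?_, rfl⟩
  intro z
  have h5 : dist (g.symm (h z)) (h z) ≤ ε / 2 := by
    have := hgs (g.symm (h z))
    rw [g.apply_symm_apply, dist_comm] at this
    exact this
  calc dist ((g⁻¹ * h) z) z = dist (g.symm (h z)) z := rfl
    _ ≤ dist (g.symm (h z)) (h z) + dist (h z) z := dist_triangle _ _ _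
    _ ≤ ε / 2 + ε / 2 := add_le_add h5 (hhs z)
    _ = ε := by ring

variable {n : ℕ}

/-- a set of `n`-tuples which is invariant under `G` -/
def Inv (G : Subgroup (X ≃ₜ X)) (Z : Set (Fin n → X)) : Prop :=
  ∀ g ∈ G, ∀ z ∈ Z, (fun i => g (z i)) ∈ Z

/-- the projections of a closed invariant set are open -/
theorem proj_open [Nonempty X] (G : Subgroup (X ≃ₜ X)) (hG : ∀ x y : X, ∃ g ∈ G, g x = y)
    {Z : Set (Fin n → X)} (hZ : IsClosed Z) (hI : Inv G Z) (i : Fin n) {z : Fin n → X}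
    (hz : z ∈ Z) {ε : ℝ} (hε : 0 < ε) :
    ∃ δ > 0, ∀ y, dist y (z i) < δ → ∃ w ∈ Z, dist w z ≤ ε ∧ w i = y := by
  obtain ⟨δ, hδ, h⟩ := micro G hG (z i) hε
  refine ⟨δ, hδ, fun y hy => ?_⟩
  have hc : IsCompact (Z ∩ closedBall z ε) := (hZ.inter isClosed_closedBall).isCompact
  have hc' : IsClosed ((fun w : Fin n → X => w i) '' (Z ∩ closedBall z ε)) :=
    (hc.image (continuous_apply i)).isClosed
  have hs : small G ε (z i) ⊆ (fun w : Fin n → X => w i) '' (Z ∩ closedBall z ε) := by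
    rintro _ ⟨g, hg, hgs, rfl⟩
    refine ⟨fun j => g (z j), ⟨hI g hg z hz, ?_⟩, rfl⟩
    rw [mem_closedBall, dist_pi_le_iff hε.le]
    exact fun j => hgs _
  obtain ⟨w, ⟨hw1, hw2⟩, hw3⟩ := hc'.closure_subset_iff.2 hs (h y hy)
  exact ⟨w, hw1, hw2, hw3⟩

/-- a component of a closed invariant set projects onto `X` -/
theorem component [ConnectedSpace X] (G : Subgroup (X ≃ₜ X))
    (hG : ∀ x y : X, ∃ g ∈ G, g x = y)
    {Z : Set (Fin n → X)} (hZ : IsClosed Z) (hI : Inv G Z) {z0 : Fin n → X} (hz0 : z0 ∈ Z) :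
    ∃ C ⊆ Z, z0 ∈ C ∧ IsCompact C ∧ IsConnected C ∧
      ∀ i, (fun w : Fin n → X => w i) '' C = univ := by
  have : CompactSpace Z := isCompact_iff_compactSpace.1 hZ.isCompact
  let a : Z := ⟨z0, hz0⟩
  have hclop : ∀ (A : Set Z), IsClopen A → A.Nonempty → ∀ (i : Fin n) (y : X),
      ∃ w ∈ A, w.1 i = y := by
    intro A hA hAne i
    have h1 : IsClopen ((fun w : Z => w.1 i) '' A) := by
      constructor
      · exact (hA.1.isCompact.image ((continuous_apply i).comp continuous_subtype_val)).isClosed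
      · rw [Metric.isOpen_iff]
        rintro _ ⟨w, hw, rfl⟩
        obtain ⟨r, hr, hb⟩ := Metric.isOpen_iff.1 hA.2 w hw
        obtain ⟨δ, hδ, h⟩ := proj_open G hG hZ hI i w.2 (half_pos hr)
        refine ⟨δ, hδ, fun y hy => ?_⟩
        obtain ⟨w', hw', hd, he⟩ := h y hy
        refine ⟨⟨w', hw'⟩, hb ?_, he⟩
        rw [mem_ball]
        show dist w' w.1 < r
        linarith
    have h2 : ((fun w : Z => w.1 i) '' A) = univ :=
      (isClopen_iff.1 h1).resolve_left (hAne.image _).ne_empty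
    intro y
    have h3 : y ∈ ((fun w : Z => w.1 i) '' A) := by rw [h2]; trivial
    exact h3
  refine ⟨Subtype.val '' connectedComponent a, ?_, ⟨a, mem_connectedComponent, rfl⟩, ?_, ?_, ?_⟩
  · rintro _ ⟨w, -, rfl⟩
    exact w.2
  · exact isClosed_connectedComponent.isCompact.image continuous_subtype_val
  · exact isConnected_connectedComponent.image _ continuous_subtype_val.continuousOn
  · intro i
    rw [eq_univ_iff_forall]
    intro y
    let S : {s : Set Z // IsClopen s ∧ a ∈ s} → Set Z := fun s => s.1 ∩ {w | w.1 i = y}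
    have hcl : IsClosed {w : Z | w.1 i = y} :=
      isClosed_eq ((continuous_apply i).comp continuous_subtype_val) continuous_const
    have : Nonempty {s : Set Z // IsClopen s ∧ a ∈ s} := ⟨⟨univ, isClopen_univ, trivial⟩⟩
    have h4 : (⋂ s, S s).Nonempty := by
      apply IsCompact.nonempty_iInter_of_directed_nonempty_isCompact_isClosed
      · rintro ⟨s, hs, has⟩ ⟨t, ht, hat⟩
        refine ⟨⟨s ∩ t, hs.inter ht, has, hat⟩, ?_, ?_⟩
        · rintro w ⟨⟨h5, -⟩, h6⟩
          exact ⟨h5, h6⟩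
        · rintro w ⟨⟨-, h5⟩, h6⟩
          exact ⟨h5, h6⟩
      · rintro ⟨s, hs, has⟩
        obtain ⟨w, hw, he⟩ := hclop s hs ⟨a, has⟩ i y
        exact ⟨w, hw, he⟩
      · rintro ⟨s, hs, has⟩
        exact (hs.1.inter hcl).isCompact
      · rintro ⟨s, hs, has⟩
        exact hs.1.inter hcl
    obtain ⟨w, hw⟩ := h4
    rw [mem_iInter] at hw
    refine ⟨w.1, ⟨w, ?_, rfl⟩, (hw ⟨univ, isClopen_univ, trivial⟩).2⟩
    rw [connectedComponent_eq_iInter_isClopen, mem_iInter]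
    exact fun s => (hw s).1

omit [CompactSpace X] in
/-- the orbit closure of a tuple is invariant -/
theorem inv_closure (G : Subgroup (X ≃ₜ X)) (x : Fin n → X) :
    Inv G (closure {z | ∃ g ∈ G, z = fun i => g (x i)}) := by
  intro g hg z hz
  have hcont : Continuous (fun z : Fin n → X => fun i => g (z i)) :=
    continuous_pi fun i => g.continuous.comp (continuous_apply i)
  refine map_mem_closure hcont hz ?_
  rintro _ ⟨h, hh, rfl⟩
  exact ⟨g * h, G.mul_mem hg hh, rfl⟩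

/-- two points: a subcontinuum of `X × X` as far from the diagonal as the orbit of a pair -/
theorem pair [ConnectedSpace X] (G : Subgroup (X ≃ₜ X))
    (hG : ∀ x y : X, ∃ g ∈ G, g x = y) (x y : X) :
    ∃ Z : Set (X × X), (x, y) ∈ Z ∧ IsCompact Z ∧ IsConnected Z ∧ Prod.fst '' Z = univ ∧
      Prod.snd '' Z = univ ∧ ∀ p ∈ Z, ∀ c : ℝ, (∀ g ∈ G, c ≤ dist (g x) (g y)) →
        c ≤ dist p.1 p.2 := by
  let t : Fin 2 → X := ![x, y]
  have hne : t ∈ (closure {z | ∃ g ∈ G, z = fun i => g (t i)}) :=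
    subset_closure ⟨1, G.one_mem, rfl⟩
  obtain ⟨C, hCZ, hC0, hC1, hC2, hC3⟩ := component G hG isClosed_closure (inv_closure G t) hne
  have hcont : Continuous (fun z : Fin 2 → X => (z 0, z 1)) :=
    (continuous_apply 0).prodMk (continuous_apply 1)
  refine ⟨(fun z : Fin 2 → X => (z 0, z 1)) '' C, ⟨t, hC0, rfl⟩, hC1.image hcont,
    hC2.image _ hcont.continuousOn, ?_, ?_, ?_⟩
  · rw [image_image]
    exact hC3 0
  · rw [image_image]
    exact hC3 1
  · rintro _ ⟨z, hz, rfl⟩ c hc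
    have h1 : IsClosed {z : Fin 2 → X | c ≤ dist (z 0) (z 1)} :=
      isClosed_le continuous_const ((continuous_apply 0).dist (continuous_apply 1))
    have h2 : {z | ∃ g ∈ G, z = fun i => g (t i)} ⊆ {z : Fin 2 → X | c ≤ dist (z 0) (z 1)} := by
      rintro _ ⟨g, hg, rfl⟩
      exact hc g hg
    exact closure_minimal h2 h1 (hCZ hz)

/-- if all pairs of points are proximal, then a closed invariant set of tuples contains a
constant tuple -/
theorem diagonal (G : Subgroup (X ≃ₜ X))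
    (h0 : ∀ x y : X, ∀ c : ℝ, 0 < c → ∃ g ∈ G, dist (g x) (g y) < c)
    {Z : Set (Fin n → X)} (hZ : IsClosed Z) (hI : Inv G Z) (hne : Z.Nonempty) (i0 : Fin n)
    (s : Finset (Fin n)) : ∃ z ∈ Z, ∀ i ∈ s, z i = z i0 := by
  classical
  induction s using Finset.induction_on with
  | empty =>
    obtain ⟨z, hz⟩ := hne
    exact ⟨z, hz, by simp⟩
  | insert j s hj ih =>
    obtain ⟨z, hz, hzs⟩ := ih
    let Zs : Set (Fin n → X) := Z ∩ ⋂ i ∈ s, {z | z i = z i0}
    have h1 : IsClosed Zs := by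
      refine hZ.inter (isClosed_biInter fun i _ => ?_)
      exact isClosed_eq (continuous_apply i) (continuous_apply i0)
    have hcont : Continuous (fun w : Fin n → X => dist (w i0) (w j)) :=
      (continuous_apply i0).dist (continuous_apply j)
    have h3 : Zs.Nonempty := ⟨z, hz, mem_iInter₂.2 hzs⟩
    obtain ⟨w, hw, hmin⟩ := h1.isCompact.exists_isMinOn h3 hcont.continuousOn
    have hwZ : w ∈ Z := hw.1
    have hw2 : ∀ i ∈ s, w ∈ {z : Fin n → X | z i = z i0} := mem_iInter₂.1 hw.2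
    have hws : ∀ i ∈ s, w i = w i0 := fun i hi => hw2 i hi
    have h4 : dist (w i0) (w j) = 0 := by
      by_contra hcon
      have h5 : 0 < dist (w i0) (w j) := lt_of_le_of_ne dist_nonneg (Ne.symm hcon)
      obtain ⟨g, hg, hgd⟩ := h0 (w i0) (w j) _ h5
      have h6 : (fun i => g (w i)) ∈ Zs := by
        refine ⟨hI g hg w hwZ, mem_iInter₂.2 fun i hi => ?_⟩
        show g (w i) = g (w i0)
        rw [hws i hi]
      have h7 : dist (w i0) (w j) ≤ dist (g (w i0)) (g (w j)) := hmin h6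
      linarith
    refine ⟨w, hwZ, fun i hi => ?_⟩
    rcases Finset.mem_insert.1 hi with rfl | hi
    · exact (dist_eq_zero.1 h4).symm
    · exact hws i hi

/-- if all pairs of points are proximal then every finite set is moved into every non-empty open
set -/
theorem shrink (G : Subgroup (X ≃ₜ X)) (hG : ∀ x y : X, ∃ g ∈ G, g x = y)
    (h0 : ∀ x y : X, ∀ c : ℝ, 0 < c → ∃ g ∈ G, dist (g x) (g y) < c) {F U : Set X}
    (hF : F.Finite) (hU : IsOpen U) (hUne : U.Nonempty) : ∃ g ∈ G, g '' F ⊆ U := by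
  obtain ⟨n, x, -, hx⟩ := hF.fin_param
  obtain ⟨p, hp⟩ := hUne
  rcases Nat.eq_zero_or_pos n with rfl | hn
  · refine ⟨1, G.one_mem, ?_⟩
    rw [← hx]
    rintro _ ⟨_, ⟨i, -⟩, -⟩
    exact i.elim0
  · let i0 : Fin n := ⟨0, hn⟩
    set Z : Set (Fin n → X) := closure {z | ∃ g ∈ G, z = fun i => g (x i)} with hZ
    have hne : Z.Nonempty := ⟨x, subset_closure ⟨1, G.one_mem, rfl⟩⟩
    obtain ⟨z, hz, hzz⟩ := diagonal G h0 isClosed_closure (inv_closure G x) hne i0 Finset.univ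
    obtain ⟨g, hg, hgp⟩ := hG (z i0) p
    have h1 : (fun i => g (z i)) ∈ Z := inv_closure G x g hg z hz
    have h2 : IsOpen {w : Fin n → X | ∀ i, w i ∈ U} := by
      have : {w : Fin n → X | ∀ i, w i ∈ U} = Set.pi univ fun _ => U := by
        ext w
        simp
      rw [this]
      exact isOpen_set_pi finite_univ fun _ _ => hU
    have h3 : (fun i => g (z i)) ∈ {w : Fin n → X | ∀ i, w i ∈ U} := by
      intro i
      show g (z i) ∈ U
      rw [hzz i (Finset.mem_univ i), hgp]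
      exact hp
    obtain ⟨w, hw, h, hh, rfl⟩ := mem_closure_iff.1 h1 _ h2 h3
    refine ⟨h, hh, ?_⟩
    rw [← hx]
    rintro _ ⟨_, ⟨i, rfl⟩, rfl⟩
    exact hw i

/-- **Theorem.** A transitive group of homeomorphisms which does not move a finite set into some
non-empty open set gives a subcontinuum of the square away from the diagonal. -/
theorem main [ConnectedSpace X] (G : Subgroup (X ≃ₜ X)) (hG : ∀ x y : X, ∃ g ∈ G, g x = y)
    {F U : Set X} (hF : F.Finite) (hU : IsOpen U) (hne : U.Nonempty)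
    (h : ∀ g ∈ G, ¬ g '' F ⊆ U) :
    ∃ (x y : X) (c : ℝ) (Z : Set (X × X)), 0 < c ∧ (∀ g ∈ G, c ≤ dist (g x) (g y)) ∧
      (x, y) ∈ Z ∧ IsCompact Z ∧ IsConnected Z ∧ Prod.fst '' Z = univ ∧
      Prod.snd '' Z = univ ∧ ∀ p ∈ Z, c ≤ dist p.1 p.2 := by
  by_contra hcon
  have h0 : ∀ x y : X, ∀ c : ℝ, 0 < c → ∃ g ∈ G, dist (g x) (g y) < c := by
    intro x y c hc
    by_contra h1
    push Not at h1
    obtain ⟨Z, hZ0, hZ1, hZ2, hZ3, hZ4, hZ5⟩ := pair G hG x y
    exact hcon ⟨x, y, c, Z, hc, h1, hZ0, hZ1, hZ2, hZ3, hZ4, fun p hp => hZ5 p hp c h1⟩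
  obtain ⟨g, hg, hgF⟩ := shrink G hG h0 hF hU hne
  exact h g hg hgF

/-- `X` has positive surjective span -/
def PosSpan (X : Type) [MetricSpace X] : Prop :=
  ∃ Z : Set (X × X), IsCompact Z ∧ IsConnected Z ∧ Prod.fst '' Z = univ ∧ Prod.snd '' Z = univ ∧
    ∀ p ∈ Z, p.1 ≠ p.2

/-- `X` is chainable: it has finite open covers of every small mesh whose nerve is an arc -/
def Chainable (X : Type) [MetricSpace X] : Prop :=
  ∀ ε : ℝ, 0 < ε → ∃ (n : ℕ) (U : Fin n → Set X), (∀ i, IsOpen (U i)) ∧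
    (∀ i, Metric.diam (U i) < ε) ∧ (⋃ i, U i) = univ ∧
    ∀ i j, (U i ∩ U j).Nonempty ↔ (i : ℕ) ≤ j + 1 ∧ (j : ℕ) ≤ i + 1

/-- chainable continua have surjective span zero (Lelek) -/
theorem chainable [ConnectedSpace X] (hX : Chainable X) : ¬ PosSpan X := by
  rintro ⟨Z, hZ1, hZ2, hZf, hZs, hZd⟩
  obtain ⟨p0, hp0, hmin⟩ := hZ1.exists_isMinOn hZ2.nonempty
    (continuous_dist (α := X)).continuousOn
  have hδ : 0 < dist p0.1 p0.2 := dist_pos.2 (hZd p0 hp0)
  have hmin' : ∀ p ∈ Z, dist p0.1 p0.2 ≤ dist p.1 p.2 := fun p hp => hmin hp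
  obtain ⟨n, U, hU1, hU2, hU3, hU4⟩ := hX (dist p0.1 p0.2 / 2) (half_pos hδ)
  have hb : ∀ s : Set X, Bornology.IsBounded s := fun s => isBounded_of_compactSpace
  have hmem : ∀ x : X, ∃ i, x ∈ U i := fun x => by
    have : x ∈ ⋃ i, U i := by rw [hU3]; trivial
    exact mem_iUnion.1 this
  have hnear : ∀ {i j : Fin n} {x y : X}, x ∈ U i → y ∈ U j →
      ((i : ℕ) ≤ j + 1 ∧ (j : ℕ) ≤ i + 1) → dist x y < dist p0.1 p0.2 := by
    intro i j x y hx hy hij
    obtain ⟨w, hw1, hw2⟩ := (hU4 i j).2 hij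
    have h1 := dist_le_diam_of_mem (hb (U i)) hx hw1
    have h2 := dist_le_diam_of_mem (hb (U j)) hw2 hy
    have h3 := dist_triangle x w y
    have h4 := hU2 i
    have h5 := hU2 j
    linarith
  let L : Set (X × X) := ⋃ (i : Fin n) (j : Fin n) (_ : (i : ℕ) + 1 < j), U i ×ˢ U j
  let R : Set (X × X) := ⋃ (i : Fin n) (j : Fin n) (_ : (j : ℕ) + 1 < i), U i ×ˢ U j
  have hL : IsOpen L := isOpen_iUnion fun i => isOpen_iUnion fun j => isOpen_iUnion fun _ =>
    (hU1 i).prod (hU1 j)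
  have hR : IsOpen R := isOpen_iUnion fun i => isOpen_iUnion fun j => isOpen_iUnion fun _ =>
    (hU1 i).prod (hU1 j)
  have memL : ∀ p : X × X, p ∈ L ↔ ∃ i j : Fin n, (i : ℕ) + 1 < j ∧ p.1 ∈ U i ∧ p.2 ∈ U j := by
    intro p
    simp only [L, mem_iUnion, mem_prod, exists_prop]
  have memR : ∀ p : X × X, p ∈ R ↔ ∃ i j : Fin n, (j : ℕ) + 1 < i ∧ p.1 ∈ U i ∧ p.2 ∈ U j := by
    intro p
    simp only [R, mem_iUnion, mem_prod, exists_prop]
  have hcov : Z ⊆ L ∪ R := by
    intro p hp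
    obtain ⟨i, hi⟩ := hmem p.1
    obtain ⟨j, hj⟩ := hmem p.2
    rcases lt_or_ge ((i : ℕ) + 1) j with h | h
    · exact Or.inl ((memL p).2 ⟨i, j, h, hi, hj⟩)
    · rcases lt_or_ge ((j : ℕ) + 1) i with h' | h'
      · exact Or.inr ((memR p).2 ⟨i, j, h', hi, hj⟩)
      · exact absurd (hnear hi hj ⟨h', h⟩) (not_lt.2 (hmin' p hp))
  have hdis : Z ∩ (L ∩ R) = ∅ := by
    rw [eq_empty_iff_forall_notMem]
    rintro p ⟨-, hpL, hpR⟩
    obtain ⟨i, j, h, hi, hj⟩ := (memL p).1 hpL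
    obtain ⟨i', j', h', hi', hj'⟩ := (memR p).1 hpR
    have h1 := (hU4 i i').1 ⟨p.1, hi, hi'⟩
    have h2 := (hU4 j j').1 ⟨p.2, hj, hj'⟩
    omega
  have hn : 0 < n := by
    obtain ⟨i, -⟩ := hmem p0.1
    exact lt_of_le_of_lt (Nat.zero_le _) i.2
  let o : Fin n := ⟨0, hn⟩
  obtain ⟨w, hw, -⟩ := (hU4 o o).2 ⟨Nat.le_succ _, Nat.le_succ _⟩
  rcases isPreconnected_iff_subset_of_disjoint.1 hZ2.isPreconnected L R hL hR hcov hdis with h | h
  · have hwZ : w ∈ Prod.snd '' Z := by rw [hZs]; trivial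
    obtain ⟨p, hp, hpw⟩ := hwZ
    obtain ⟨i, j, h1, -, h3⟩ := (memL p).1 (h hp)
    have h4 := (hU4 j o).1 ⟨p.2, h3, by rw [hpw]; exact hw⟩
    have h5 : ((o : Fin n) : ℕ) = 0 := rfl
    omega
  · have hwZ : w ∈ Prod.fst '' Z := by rw [hZf]; trivial
    obtain ⟨p, hp, hpw⟩ := hwZ
    obtain ⟨i, j, h1, h2, -⟩ := (memR p).1 (h hp)
    have h4 := (hU4 i o).1 ⟨p.1, h2, by rw [hpw]; exact hw⟩
    have h5 : ((o : Fin n) : ℕ) = 0 := rfl
    omega

end Pool.Agent.helper45.Span
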